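import Pool.Agent.Lib_helper27.ABO.Main

/-!
# MP_675993_lc: above every oracle Turing- and many-one completeness coincide, and every
cryptographic game that was hard is still hard

Let `R` be an ARBITRARY oracle and let `G 0, G 1, ...` be ARBITRARY games between a challenger and
an adversary, with parameters `t 0, t 1, ...` (sizes of adversaries; the challenger has at most
`t j` random bits, at most `2 ^ T` of the games have `t j ≤ T`).  There is an oracle `H` such that
relative to `R ⊕ H`:

* some language `V` is in `UP ∩ coUP`, but not in `P/poly`; all languages in `NP`, all languages
  that are decided in exponential time with questions of polynomial length (in particular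
  `PSPACE`), and all languages `F i (R ⊕ H)` for any given sequence `F` of polynomially local
  operators are many-one reducible to `V`; and any two such languages to which `V` is reducible by a
  nonuniform polynomial time Turing reduction are isomorphic in polynomial time.  So for `NP` (and
  for `PP`, `PSPACE`, ...) every Turing complete language is many-one complete: the negated form of
  Q1;
* for all but finitely many `j` and every real `v`: if oracle circuits of size `t ^ κ(t)` with
  oracle `R`, `t = t j`, `κ(t) = (log log t) ^ 4`, win the game `G j` with probability at most `v`,
  then oracle circuits of size `t` with oracle `R ⊕ H` win it with probability at most `v + 1 / t`.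

So no hypothesis that says that games are hard for nonuniform adversaries of size `n ^ ((log log n) ^ 5)`
(one-way functions or permutations, trapdoor permutations, collision resistance, obfuscation with
arbitrary challengers, average-case hardness of any language, ...) implies a positive answer to Q1
by a relativizing proof, unless the hypothesis is false relative to every oracle.

Idea.  `H` contains a random function (the witnesses of `V`) and, stage by stage, tables of
reductions and of their inverses; the values of a table are drawn from smooth hard-core
distributions of the target language.  One invariant is kept for infinitely many levels at the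
same time: all adversaries of a derived class win with probability less than `v + η`, where `η`
grows by a factor `4` from stage to stage.  Adversaries against games are decision trees for fixed
random bits of the challenger; the simulation of a table is carried out by circuits (`lemC`), so
that after all stages adversaries with oracle `R ⊕ H` have become adversaries with oracle `R`.

Definitions: `Lib_helper74/CKF/Basic.lean` (programs, `P`, `NP`, `UP`, reductions),
`Lib_helper27/ABO/Notions.lean` (circuits, games, local operators, isomorphisms).
-/

set_option autoImplicit false

namespace Pool.Agent.Results.MP_675993_lc.CollapseAboveEveryOracle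

open Pool.Agent.CK Pool.Agent.ABO

theorem result (R : Lang) (G : ℕ → Game) (t : ℕ → ℕ) (hs : ∀ j, (G j).s ≤ t j)
    (hfin : ∀ T, {j | t j ≤ T}.Finite) (hcnt : ∀ T, {j | t j ≤ T}.ncard ≤ 2 ^ T)
    (F : ℕ → Lang → Lang) (hF : ∀ i, LocalOp (F i)) :
    ∃ H V : Lang,
      InUP (join R H) V ∧ InUP (join R H) (fun x => !V x) ∧ ¬ InP (join R H) V ∧
      ¬ AdviceTuringReducible (join R H) V (fun _ => false) ∧
      (∀ A, InNP (join R H) A ∨ InEXPshort (join R H) A ∨ (∃ i, F i (join R H) = A) →
        ManyOneReducible (join R H) A V) ∧
      (∀ C C', (InNP (join R H) C ∨ InEXPshort (join R H) C ∨ ∃ i, F i (join R H) = C) →
        (InNP (join R H) C' ∨ InEXPshort (join R H) C' ∨ ∃ i, F i (join R H) = C') →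
        AdviceTuringReducible (join R H) V C → AdviceTuringReducible (join R H) V C' →
        Isomorphic (join R H) C C') ∧
      (∀ C C', TuringComplete (join R H) C → TuringComplete (join R H) C' →
        Isomorphic (join R H) C C') ∧
      {j | ¬ ∀ v : ℝ, Hard R (G j) (t j ^ (Nat.log 2 (Nat.log 2 (t j))) ^ 4) v →
        Hard (join R H) (G j) (t j) (v + 1 / t j)}.Finite :=
  main_ABO R G t hs hfin hcnt F hF

end Pool.Agent.Results.MP_675993_lc.CollapseAboveEveryOracle
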